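import Mathlib

namespace Pool.Agent.H.MP_f8f5a4_an

open Set Filter Topology MeasureTheory Pointwise

theorem inner {X : Type} [MetricSpace X] [MeasurableSpace X] [BorelSpace X] (ν : Measure X)
    [IsFiniteMeasure ν] {s : Set X} (h : AnalyticSet s) {c : ENNReal} (c2 : c < ν s) :
    ∃ K ⊆ s, IsClosed K ∧ c ≤ ν K := by
  rw [AnalyticSet] at h
  obtain rfl | ⟨f, hf, rfl⟩ := h
  · simp at c2
  have k1 (n : ℕ) (S : Set (ℕ → ℕ)) (h : c < ν (f '' S)) :
      ∃ b, c < ν (f '' (S ∩ {x | x n ≤ b})) := by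
    have m : Monotone fun b => f '' (S ∩ {x | x n ≤ b}) := fun a b h =>
      image_mono (inter_subset_inter_right _ fun x k => le_trans k h)
    rwa [← lt_iSup_iff, ← m.measure_iUnion, ← image_iUnion, ← inter_iUnion,
      inter_eq_self_of_subset_left fun x _ => mem_iUnion.2 ⟨x n, le_refl (x n)⟩]
  choose! g k1 using k1
  let S : ℕ → Set (ℕ → ℕ) := Nat.rec univ fun n S => S ∩ {x | x n ≤ g n S}
  have k2 (n) : c < ν (f '' S n) := n.rec (image_univ ▸ c2) fun n => k1 n _
  have k3 : Antitone S := antitone_nat_of_succ_le fun n => inter_subset_left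
  have k4 : ⋂ n, closure (f '' S n) ⊆ range f := fun y hy => by
    choose z z1 z2 using fun n : ℕ => Metric.mem_closure_iff.1 (mem_iInter.1 hy n) _
      (Nat.one_div_pos_of_nat (n := n))
    choose x x1 x2 using z1
    obtain ⟨a, -, φ, k4, k5⟩ := (isCompact_univ_pi fun i => ((finite_Iic (g i (S i))).union
      ((finite_Iic i).image fun n => x n i)).isCompact).tendsto_subseq (x := x) fun n i _ =>
        (lt_or_ge i n).imp (fun h => (k3 (Nat.succ_le_of_lt h) (x1 n)).2) fun h => ⟨n, h, rfl⟩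
    refine ⟨a, tendsto_nhds_unique ((hf.tendsto a).comp k5) (tendsto_iff_dist_tendsto_zero.2
      (squeeze_zero (fun _ => dist_nonneg) (fun n => ?_)
        (tendsto_one_div_add_atTop_nhds_zero_nat.comp k4.tendsto_atTop)))⟩
    rw [dist_comm]
    exact (x2 (φ n) ▸ z2 (φ n)).le
  refine ⟨⋂ n, closure (f '' S n), k4, isClosed_iInter fun _ => isClosed_closure, ?_⟩
  rw [Antitone.measure_iInter (fun a b h => closure_mono (image_mono (k3 h)))
    (fun _ => isClosed_closure.measurableSet.nullMeasurableSet) ⟨0, measure_ne_top _ _⟩]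
  exact le_iInf fun n => (k2 n).le.trans (measure_mono subset_closure)

theorem nullm {X : Type} [MetricSpace X] [MeasurableSpace X] [BorelSpace X] (ν : Measure X)
    [IsFiniteMeasure ν] {s : Set X} (h : AnalyticSet s) : NullMeasurableSet s ν := by
  by_cases h0 : ν s = 0
  · exact NullMeasurableSet.of_null h0
  obtain ⟨u, -, u1, u2⟩ := exists_seq_strictMono_tendsto' (pos_iff_ne_zero.2 h0)
  choose K K1 K2 K3 using fun n => inner ν h (u1 n).2
  have hm : MeasurableSet (⋃ n, K n) := MeasurableSet.iUnion fun n => (K2 n).measurableSet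
  exact hm.nullMeasurableSet.congr (ae_eq_of_subset_of_measure_ge (iUnion_subset K1)
    (le_of_tendsto' u2 fun n => (K3 n).trans (measure_mono (subset_iUnion K n)))
    hm.nullMeasurableSet (measure_ne_top _ _))

theorem sym (N : (ℕ → ZMod 2) → ℕ∞) (h1 : ∀ k : ℕ, AnalyticSet {ω | (k : ℕ∞) ≤ N ω})
    (h2 : ∀ ω ω' n, (∀ i, n ≤ i → ω i = ω' i) → N ω = N ω') : ∃ ω, N (ω + 1) = N ω := by
  borelize (ℕ → ZMod 2)
  let _ := TopologicalSpace.metrizableSpaceMetric (ℕ → ZMod 2)
  let μ : Measure (ℕ → ZMod 2) := Measure.addHaar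
  have hn : ∀ k : ℕ, NullMeasurableSet {ω | (k : ℕ∞) ≤ N ω} μ := fun k => nullm μ (h1 k)
  have hA : ∀ c, NullMeasurableSet {ω | N ω = c} μ := by
    intro c
    induction c with
    | top =>
      have : {ω | N ω = ⊤} = ⋂ k : ℕ, {ω | (k : ℕ∞) ≤ N ω} := by
        ext ω
        simp only [mem_setOf_eq, mem_iInter]
        exact ⟨fun h k => h ▸ le_top, fun h => ENat.eq_top_iff_forall_ge.2 h⟩
      rw [this]
      exact NullMeasurableSet.iInter hn
    | coe k =>
      have : {ω | N ω = k} = {ω | (k : ℕ∞) ≤ N ω} \ {ω | ((k + 1 : ℕ) : ℕ∞) ≤ N ω} := by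
        ext ω
        simp only [mem_setOf_eq, mem_diff, not_le]
        induction N ω with
        | top => simp
        | coe m =>
          norm_cast
          omega
      rw [this]
      exact (hn k).diff (hn _)
  obtain ⟨c, hc⟩ : ∃ c, μ {ω | N ω = c} ≠ 0 := by
    by_contra h
    push Not at h
    exact (isOpen_univ.measure_pos μ univ_nonempty).ne' (measure_mono_null
      (fun ω _ => mem_iUnion.2 ⟨N ω, rfl⟩) (measure_iUnion_null h))
  obtain ⟨t, t1, t2, t3⟩ := (hA c).exists_measurable_subset_ae_eq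
  have h3 := Measure.sub_mem_nhds_zero_of_addHaar_pos μ t t2
    (by rw [measure_congr t3]; exact pos_iff_ne_zero.2 hc)
  obtain ⟨U, U1, U2, U3⟩ := mem_nhds_iff.1 h3
  obtain ⟨I, u, u1, u2⟩ := isOpen_pi_iff.1 U2 0 U3
  obtain ⟨a, ha, b, hb, hab⟩ := U1 (u2 (show (fun i => if i ≤ I.sup id then 0 else 1) ∈ _ from
    fun i hi => by
      have h4 : i ≤ I.sup id := Finset.le_sup (f := id) hi
      simp only [if_pos h4]
      exact (u1 i hi).2))
  refine ⟨b, ?_⟩
  rw [h2 (b + 1) a (I.sup id + 1) fun i hi => ?_, t1 ha, t1 hb]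
  have := congrFun hab i
  simp only [Pi.sub_apply, if_neg (show ¬ i ≤ I.sup id by omega)] at this
  rw [Pi.add_apply, Pi.one_apply, ← this]
  ring

section

variable {V E : Type} (s r : E → V) (lv : V → ℕ)

def IsPath (x : ℕ → E) : Prop := lv (s (x 0)) = 0 ∧ ∀ i, r (x i) = s (x (i + 1))

def IsMx (o : E → ℤ) (e : E) : Prop := ∀ e', r e' = r e → o e' ≤ o e

def XM (o : E → ℤ) : Set (ℕ → E) := {x | IsPath s r lv x ∧ ∀ i, IsMx r o (x i)}

def down (M : V → E) (e : E) : ℕ → E
  | 0 => e
  | j + 1 => M (s (down M e j))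

def fill (M : V → E) (n : ℕ) (e : E) (x : ℕ → E) : ℕ → E :=
  fun i => if n < i then x i else down s M e (n - i)

def Good (o : E → ℤ) (M : V → E) : Prop :=
  (∀ e e', r e = r e' → o e = o e' → e = e') ∧
    ∀ v, 0 < lv v → r (M v) = v ∧ ∀ e, r e = v → o e ≤ o (M v)

variable {s r lv}

theorem exM [Nonempty E] (h2 : ∀ v, 0 < lv v → ∃ e, r e = v) (h3 : ∀ v, {e | r e = v}.Finite)
    {o : E → ℤ} (ho : ∀ e e', r e = r e' → o e = o e' → e = e') : ∃ M, Good r lv o M := by
  have : ∀ v, ∃ m : E, 0 < lv v → r m = v ∧ ∀ e, r e = v → o e ≤ o m := by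
    intro v
    by_cases h : 0 < lv v
    · obtain ⟨m, h4, h5⟩ := exists_max_image _ o (h3 v) (h2 v h)
      exact ⟨m, fun _ => ⟨h4, h5⟩⟩
    · exact ⟨Classical.arbitrary E, fun h' => absurd h' h⟩
  choose M hM using this
  exact ⟨M, ho, hM⟩

theorem fill_self (M : V → E) (n : ℕ) (e : E) (x : ℕ → E) : fill s M n e x n = e := by
  simp [fill, down]

theorem fill_gt (M : V → E) {n i : ℕ} (e : E) (x : ℕ → E) (h : n < i) : fill s M n e x i = x i :=
  if_pos h

theorem fill_lt (M : V → E) {n i : ℕ} (e : E) (x : ℕ → E) (h : i < n) :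
    fill s M n e x i = M (s (fill s M n e x (i + 1))) := by
  simp only [fill, if_neg (show ¬ n < i by omega), if_neg (show ¬ n < i + 1 by omega)]
  rw [show n - i = n - (i + 1) + 1 by omega, down]

variable (h1 : ∀ e, lv (r e) = lv (s e) + 1)
include h1

theorem path_lv {x : ℕ → E} (hx : IsPath s r lv x) (i : ℕ) : lv (s (x i)) = i := by
  induction i with
  | zero => exact hx.1
  | succ i ih => rw [← hx.2, h1, ih]

theorem fill_path {o : E → ℤ} {M : V → E} (hM : Good r lv o M) {x : ℕ → E}
    (hx : IsPath s r lv x) {n : ℕ} {e : E} (he : r e = r (x n)) :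
    IsPath s r lv (fill s M n e x) ∧ ∀ i, i < n → IsMx r o (fill s M n e x i) := by
  have hl : ∀ j, j ≤ n → lv (s (fill s M n e x (n - j))) = n - j := by
    intro j
    induction j with
    | zero =>
      intro _
      have := h1 e
      rw [he, h1, path_lv h1 hx] at this
      rw [Nat.sub_zero, fill_self]
      omega
    | succ j ih =>
      intro hj
      have a1 := ih (by omega)
      have a2 := h1 (fill s M n e x (n - (j + 1)))
      rw [fill_lt M e x (show n - (j + 1) < n by omega),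
        show n - (j + 1) + 1 = n - j by omega] at a2 ⊢
      rw [(hM.2 _ (by omega)).1] at a2
      omega
  have hl2 : ∀ i, i < n → 0 < lv (s (fill s M n e x (i + 1))) := fun i hi => by
    have := hl (n - (i + 1)) (by omega)
    rw [show n - (n - (i + 1)) = i + 1 by omega] at this
    omega
  refine ⟨⟨by simpa using hl n le_rfl, fun i => ?_⟩, fun i hi e' h => ?_⟩
  · rcases lt_trichotomy i n with h | h | h
    · rw [fill_lt M e x h, (hM.2 _ (hl2 i h)).1]
    · subst h
      rw [fill_self, fill_gt M e x (Nat.lt_succ_self _), he, hx.2]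
    · rw [fill_gt M e x h, fill_gt M e x (by omega), hx.2]
  · rw [fill_lt M e x hi] at h ⊢
    exact (hM.2 _ (hl2 i hi)).2 e' (h.trans (hM.2 _ (hl2 i hi)).1)

omit h1 in
theorem tail_eq {o : E → ℤ} (ho : ∀ e e', r e = r e' → o e = o e' → e = e') {x y : ℕ → E}
    (hx : IsPath s r lv x) (hy : IsPath s r lv y) {n : ℕ}
    (a1 : ∀ i, i < n → IsMx r o (x i)) (a2 : ∀ i, i < n → IsMx r o (y i))
    (h : s (x n) = s (y n)) : ∀ i, i < n → x i = y i := by
  induction n with
  | zero => simp
  | succ n ih =>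
    have e1 : r (x n) = r (y n) := by rw [hx.2, hy.2, h]
    have e2 : x n = y n := ho _ _ e1 (le_antisymm (a2 n (by omega) _ e1) (a1 n (by omega) _ e1.symm))
    intro i hi
    rcases Nat.lt_succ_iff_lt_or_eq.1 hi with h' | rfl
    · exact ih (fun i hi => a1 i (by omega)) (fun i hi => a2 i (by omega)) (by rw [e2]) i h'
    · exact e2

theorem transfer {o o' : E → ℤ} (ho : ∀ e e', r e = r e' → o e = o e' → e = e') {M : V → E}
    (hM : Good r lv o' M) {S : Set (ℕ → E)} (hS : S ⊆ XM s r lv o) {n : ℕ}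
    (h : ∀ x ∈ S, ∀ i, n ≤ i → IsMx r o' (x i)) :
    ∃ f, InjOn f S ∧ MapsTo f S (XM s r lv o') := by
  have hge : ∀ (x : ℕ → E) i, n ≤ i → fill s M n (x n) x i = x i := fun x i hi => by
    rcases hi.eq_or_lt with rfl | h
    · exact fill_self _ _ _ _
    · exact fill_gt _ _ _ h
  refine ⟨fun x => fill s M n (x n) x, fun x hx y hy hxy => ?_, fun x hx => ?_⟩
  · have e1 : ∀ i, n ≤ i → x i = y i := fun i hi => by
      rw [← hge x i hi, ← hge y i hi]
      exact congrFun hxy i
    funext i
    rcases lt_or_ge i n with h | h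
    · exact tail_eq ho (hS hx).1 (hS hy).1 (fun i _ => (hS hx).2 i) (fun i _ => (hS hy).2 i)
        (by rw [e1 n le_rfl]) i h
    · exact e1 i h
  · obtain ⟨a1, a2⟩ := fill_path h1 hM (hS hx).1 (n := n) rfl
    refine ⟨a1, fun i => ?_⟩
    rcases lt_or_ge i n with h' | h'
    · exact a2 i h'
    · simp only [hge x i h']
      exact h x hx i h'

omit h1 in
theorem XM_closed [TopologicalSpace E] [DiscreteTopology E] (o : E → ℤ) :
    IsClosed (XM s r lv o) := by
  have c1 : ∀ (i : ℕ) (P : E → Prop), IsClosed {x : ℕ → E | P (x i)} := fun i P =>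
    (isClosed_discrete {e | P e}).preimage (continuous_apply i)
  have c2 : ∀ i : ℕ, IsClosed {x : ℕ → E | r (x i) = s (x (i + 1))} := fun i =>
    IsClosed.preimage (f := fun x : ℕ → E => (x i, x (i + 1))) (by fun_prop)
      (isClosed_discrete {p : E × E | r p.1 = s p.2})
  simp only [XM, IsPath, setOf_and, setOf_forall]
  exact ((c1 0 fun e => lv (s e) = 0).inter (isClosed_iInter c2)).inter
    (isClosed_iInter fun i => c1 i _)

theorem split [Countable E] (h2 : ∀ v, 0 < lv v → ∃ e, r e = v)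
    (h3 : ∀ v, {e | r e = v}.Finite) {o : E → ℤ} (ho : ∀ e e', r e = r e' → o e = o e' → e = e')
    (hu : ¬ (XM s r lv o).Countable) :
    ∃ o' : E → ℤ, (∀ e e', r e = r e' → o' e = o' e' → e = e') ∧
      ¬ (XM s r lv o').Countable ∧ ¬ (XM s r lv (-o')).Countable := by
  classical
  obtain ⟨n, a, b, hab, ha, hb⟩ : ∃ n a b, a ≠ b ∧ ¬ {x ∈ XM s r lv o | x n = a}.Countable ∧
      ¬ {x ∈ XM s r lv o | x n = b}.Countable := by
    by_contra h
    push Not at h
    refine hu (Countable.mono (fun x hx => ?_) ((countable_iUnion fun p : {p : ℕ × E //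
      {x ∈ XM s r lv o | x p.1 = p.2}.Countable} => p.2).union (Set.Subsingleton.countable
        (s := {x | ∀ n, ¬ {y ∈ XM s r lv o | y n = x n}.Countable}) fun x hx y hy => ?_)))
    · by_cases h4 : ∃ n, {y ∈ XM s r lv o | y n = x n}.Countable
      · obtain ⟨n, hn⟩ := h4
        exact Or.inl (mem_iUnion.2 ⟨⟨(n, x n), hn⟩, hx, rfl⟩)
      · exact Or.inr (not_exists.1 h4)
    · funext n
      by_contra h5
      exact hy n (h n _ _ h5 (hx n))
  let P : V → Prop := fun v => ∃ x ∈ XM s r lv o, x n = b ∧ ∃ i, n ≤ i ∧ r (x i) = v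
  let o' : E → ℤ := fun e => if P (r e) then -o e else o e
  have ho' : ∀ e e', r e = r e' → o' e = o' e' → e = e' := by
    intro e e' h h'
    simp only [o', h] at h'
    split_ifs at h'
    · exact ho e e' h (neg_injective h')
    · exact ho e e' h h'
  have : Nonempty E := ⟨a⟩
  obtain ⟨M, hM⟩ := exM h2 h3 ho'
  obtain ⟨M', hM'⟩ := exM h2 h3 (o := -o') fun e e' h h' => ho' e e' h (neg_injective h')
  refine ⟨o', ho', fun h => ha ?_, fun h => hb ?_⟩
  · obtain ⟨f, f1, f2⟩ := transfer h1 ho hM (S := {x ∈ XM s r lv o | x n = a})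
      (fun x hx => hx.1) (n := n) (by
        rintro x ⟨hx, hxa⟩ i hi e he
        have : ¬ P (r (x i)) := by
          rintro ⟨y, hy, hyb, j, hj, h4⟩
          have e1 : j = i := by
            have := congrArg lv h4
            rw [h1, h1, path_lv h1 hy.1, path_lv h1 hx.1] at this
            omega
          subst e1
          rw [hy.1.2, hx.1.2] at h4
          have := tail_eq ho hy.1 hx.1 (fun i _ => hy.2 i) (fun i _ => hx.2 i) h4 n (by omega)
          exact hab (hxa.symm.trans (this.symm.trans hyb))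
        simp only [o', he, if_neg this]
        exact hx.2 i e he)
    exact f2.countable_of_injOn f1 h
  · obtain ⟨f, f1, f2⟩ := transfer h1 ho hM' (S := {x ∈ XM s r lv o | x n = b})
      (fun x hx => hx.1) (n := n) (by
        rintro x ⟨hx, hxb⟩ i hi e he
        have : P (r (x i)) := ⟨x, hx, hxb, i, hi, rfl⟩
        simp only [o', he, if_pos this, Pi.neg_apply, neg_neg]
        exact hx.2 i e he)
    exact f2.countable_of_injOn f1 h

theorem exo [Countable E] [Nonempty E] [TopologicalSpace E] [DiscreteTopology E]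
    (h2 : ∀ v, 0 < lv v → ∃ e, r e = v) (h3 : ∀ v, {e | r e = v}.Finite) :
    ∃ o : E → ℤ, (∀ e e', r e = r e' → o e = o e' → e = e') ∧
      ((¬ (XM s r lv o).Countable ∧ ¬ (XM s r lv (-o)).Countable) ∨
        Nonempty (XM s r lv o ≃ XM s r lv (-o))) := by
  classical
  by_cases hu : ∃ o : E → ℤ, (∀ e e', r e = r e' → o e = o e' → e = e') ∧
      ¬ (XM s r lv o).Countable
  · obtain ⟨o, ho, hu⟩ := hu
    obtain ⟨o', a1, a2⟩ := split h1 h2 h3 ho hu
    exact ⟨o', a1, Or.inl a2⟩
  push Not at hu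
  obtain ⟨o0, ho0⟩ := exists_injective_nat E
  let o : (ℕ → ZMod 2) → E → ℤ := fun ω e => if ω (lv (r e)) = 1 then o0 e else -o0 e
  have ho : ∀ ω e e', r e = r e' → o ω e = o ω e' → e = e' := by
    intro ω e e' h h'
    simp only [o, h] at h'
    split_ifs at h'
    · exact ho0 (by exact_mod_cast h')
    · exact ho0 (by exact_mod_cast neg_injective h')
  have hneg : ∀ ω, o (ω + 1) = -o ω := by
    intro ω
    funext e
    simp only [o, Pi.add_apply, Pi.one_apply, Pi.neg_apply]
    have : ∀ t : ZMod 2, (t + 1 = 1 ↔ ¬ t = 1) := by decide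
    by_cases h : ω (lv (r e)) = 1
    · rw [if_neg (fun h' => (this _).1 h' h), if_pos h]
    · rw [if_pos ((this _).2 h), if_neg h, neg_neg]
  have hle : ∀ ω ω' n, (∀ i, n ≤ i → ω i = ω' i) →
      (XM s r lv (o ω)).encard ≤ (XM s r lv (o ω')).encard := by
    intro ω ω' n h
    obtain ⟨M, hM⟩ := exM h2 h3 (ho ω')
    obtain ⟨f, f1, f2⟩ := transfer h1 (ho ω) hM subset_rfl (n := n) (by
      intro x hx i hi e he
      have := hx.2 i e he
      simp only [o, he] at this ⊢
      rwa [← h _ (by rw [h1, path_lv h1 hx.1]; omega)])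
    exact encard_le_encard_of_injOn f2 f1
  suffices hana : ∀ k : ℕ, AnalyticSet {ω | (k : ℕ∞) ≤ (XM s r lv (o ω)).encard} by
    obtain ⟨ω, hω⟩ := sym (fun ω => (XM s r lv (o ω)).encard) hana
      fun ω ω' n h => le_antisymm (hle _ _ n h) (hle _ _ n fun i hi => (h i hi).symm)
    refine ⟨o ω, ho ω, Or.inr ?_⟩
    rw [hneg] at hω
    by_cases hf : (XM s r lv (o ω)).Finite
    · obtain ⟨f, hf⟩ := hf.exists_bijOn_of_encard_eq hω.symm
      exact ⟨hf.equiv f⟩
    · have a1 := Set.Infinite.to_subtype hf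
      have a2 := (encard_eq_top_iff.1 (hω.trans (Set.Infinite.encard_eq hf))).to_subtype
      have a3 := (hu _ (ho ω)).to_subtype
      have a4 := (hu (-o ω) (hneg ω ▸ ho (ω + 1))).to_subtype
      exact nonempty_equiv_of_countable
  · intro k
    borelize (ℕ → ZMod 2)
    borelize ((ℕ → ZMod 2) × (Fin k → ℕ → E))
    have e1 : {ω | (k : ℕ∞) ≤ (XM s r lv (o ω)).encard} = Prod.fst ''
        ({p : (ℕ → ZMod 2) × (Fin k → ℕ → E) | ∀ j, p.2 j ∈ XM s r lv (o p.1)} ∩
          {p | ∀ i j, i ≠ j → p.2 i ≠ p.2 j}) := by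
      ext ω
      constructor
      · intro h
        obtain ⟨t, t1, t2⟩ := exists_subset_encard_eq h
        have hf : t.Finite := finite_of_encard_eq_coe t2
        have := hf.fintype
        have e : Fin k ≃ t := Fintype.equivOfCardEq (by
          rw [← coe_fintypeCard] at t2
          simpa using (Nat.cast_injective t2).symm)
        exact ⟨(ω, fun j => e j), ⟨fun j => t1 (e j).2, fun i j hij h =>
          hij (e.injective (Subtype.ext h))⟩, rfl⟩
      · rintro ⟨⟨_, x⟩, ⟨a1, a2⟩, rfl⟩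
        have := encard_le_encard_of_injOn (s := univ) (f := x) (fun j _ => a1 j)
          fun i _ j _ h => by_contra fun h' => a2 i j h' h
        simpa using this
    rw [e1]
    refine MeasurableSet.analyticSet_image (MeasurableSet.inter (IsClosed.measurableSet ?_)
      (IsOpen.measurableSet ?_)) continuous_fst.measurable
    · have e2 : {p : (ℕ → ZMod 2) × (Fin k → ℕ → E) | ∀ j, p.2 j ∈ XM s r lv (o p.1)} =
          ⋂ j, ({p | IsPath s r lv (p.2 j)} ∩ ⋂ i, {p | IsMx r (o p.1) (p.2 j i)}) := by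
        ext p
        simp [XM]
      rw [e2]
      refine isClosed_iInter fun j => IsClosed.inter ?_ (isClosed_iInter fun i => ?_)
      · have := XM_closed (s := s) (r := r) (lv := lv) 0
        simp only [XM, IsMx, Pi.zero_apply, le_refl, implies_true, and_true] at this
        exact this.preimage (f := fun p : (ℕ → ZMod 2) × (Fin k → ℕ → E) => p.2 j) (by fun_prop)
      · rw [← isOpen_compl_iff, isOpen_iff_forall_mem_open]
        intro p hp
        refine ⟨{q | q.2 j i = p.2 j i} ∩ {q | q.1 (lv (r (p.2 j i))) = p.1 (lv (r (p.2 j i)))},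
          fun q hq hq2 => hp fun e he => ?_, IsOpen.inter ?_ ?_, rfl, rfl⟩
        · have := hq2 e (he.trans (congrArg r hq.1.symm))
          have a1 : q.2 j i = p.2 j i := hq.1
          have a2 : q.1 (lv (r (p.2 j i))) = p.1 (lv (r (p.2 j i))) := hq.2
          simp only [o, he, a1, a2] at this ⊢
          exact this
        · exact (isOpen_discrete {p.2 j i}).preimage
            (f := fun q : (ℕ → ZMod 2) × (Fin k → ℕ → E) => q.2 j i) (by fun_prop)
        · exact (isOpen_discrete {p.1 (lv (r (p.2 j i)))}).preimage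
            (f := fun q : (ℕ → ZMod 2) × (Fin k → ℕ → E) => q.1 (lv (r (p.2 j i)))) (by fun_prop)
    · simp only [setOf_forall]
      exact isOpen_iInter_of_finite fun i => isOpen_iInter_of_finite fun j =>
        isOpen_iInter_of_finite fun _ => isOpen_ne_fun
          ((continuous_apply i).comp continuous_snd) ((continuous_apply j).comp continuous_snd)

end

end Pool.Agent.H.MP_f8f5a4_an
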