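import Pool.Agent.H.MP_f8f5a4_an.A

namespace Pool.Agent.H.MP_f8f5a4_an

open Set Filter Topology MeasureTheory

variable {V E : Type} {s r : E → V} {lv : V → ℕ}

def Ver (r : E → V) (o : E → ℤ) (x y : ℕ → E) (n : ℕ) : Prop :=
  ((∀ i, i < n → IsMx r o (x i)) ∧ ¬ IsMx r o (x n)) ∧
    (r (y n) = r (x n) ∧ o (x n) < o (y n) ∧
      ∀ e, r e = r (x n) → o (x n) < o e → o (y n) ≤ o e) ∧
    (∀ i, n < i → y i = x i) ∧ ∀ i, i < n → IsMx r (-o) (y i)

theorem Ver.symm {o : E → ℤ} {x y : ℕ → E} {n : ℕ} (h : Ver r o x y n) : Ver r (-o) y x n := by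
  obtain ⟨⟨a1, -⟩, ⟨a3, a4, a5⟩, a6, a7⟩ := h
  refine ⟨⟨a7, fun h => ?_⟩, ⟨a3.symm, neg_lt_neg a4, fun e h1 h2 => ?_⟩,
    fun i hi => (a6 i hi).symm, by rwa [neg_neg]⟩
  · exact absurd (h _ a3.symm) (not_le.2 (neg_lt_neg a4))
  · by_contra h3
    simp only [Pi.neg_apply, neg_lt_neg_iff, neg_le_neg_iff, not_le] at h2 h3
    exact absurd (a5 e (h1.trans a3) h3) (not_le.2 h2)

theorem Ver.uniq {o : E → ℤ} (ho : ∀ e e', r e = r e' → o e = o e' → e = e') {x y z : ℕ → E}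
    {n m : ℕ} (h : Ver r o x y n) (h' : Ver r o x z m) (hy : IsPath s r lv y)
    (hz : IsPath s r lv z) : y = z := by
  obtain rfl : n = m := by
    rcases lt_trichotomy n m with h1 | h1 | h1
    · exact absurd (h'.1.1 n h1) h.1.2
    · exact h1
    · exact absurd (h.1.1 m h1) h'.1.2
  have e1 : y n = z n := ho _ _ (h.2.1.1.trans h'.2.1.1.symm)
    (le_antisymm (h.2.1.2.2 _ h'.2.1.1 h'.2.1.2.1) (h'.2.1.2.2 _ h.2.1.1 h.2.1.2.1))
  funext i
  rcases lt_trichotomy i n with h1 | rfl | h1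
  · exact tail_eq (o := -o) (fun e e' a b => ho e e' a (neg_injective b)) hy hz h.2.2.2 h'.2.2.2
      (by rw [e1]) i h1
  · exact e1
  · rw [h.2.2.1 i h1, h'.2.2.1 i h1]

theorem exVer [Nonempty E] [TopologicalSpace E] [DiscreteTopology E]
    (h1 : ∀ e, lv (r e) = lv (s e) + 1) (h2 : ∀ v, 0 < lv v → ∃ e, r e = v)
    (h3 : ∀ v, {e | r e = v}.Finite) {o : E → ℤ} (ho : ∀ e e', r e = r e' → o e = o e' → e = e') :
    ∃ F : ℕ → (ℕ → E) → ℕ → E, (∀ n, Continuous (F n)) ∧ ∀ x n, IsPath s r lv x →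
      IsPath s r lv (F n x) ∧
        ((∀ i, i < n → IsMx r o (x i)) → ¬ IsMx r o (x n) → Ver r o x (F n x) n) := by
  obtain ⟨M, hM⟩ := exM h2 h3 (o := -o) fun e e' h h' => ho e e' h (neg_injective h')
  have : ∀ e, ∃ e', r e' = r e ∧ (¬ IsMx r o e → o e < o e' ∧
      ∀ e'', r e'' = r e → o e < o e'' → o e' ≤ o e'') := by
    intro e
    by_cases h : IsMx r o e
    · exact ⟨e, rfl, fun h' => absurd h h'⟩
    · simp only [IsMx, not_forall, not_le] at h
      obtain ⟨e1, a1, a2⟩ := h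
      obtain ⟨m, h4, h5⟩ := exists_min_image {e' | r e' = r e ∧ o e < o e'} o
        ((h3 (r e)).subset fun _ h => h.1) ⟨e1, a1, a2⟩
      exact ⟨m, h4.1, fun _ => ⟨h4.2, fun e'' b1 b2 => h5 e'' ⟨b1, b2⟩⟩⟩
  choose nx n1 n2 using this
  refine ⟨fun n x => fill s M n (nx (x n)) x, fun n => continuous_pi fun i => ?_, fun x n hx => ?_⟩
  · simp only [fill]
    split_ifs
    · exact continuous_apply i
    · exact (continuous_of_discreteTopology (f := fun e => down s M (nx e) (n - i))).comp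
        (continuous_apply n)
  · obtain ⟨a1, a2⟩ := fill_path h1 hM hx (n1 (x n))
    refine ⟨a1, fun b1 b2 => ⟨⟨b1, b2⟩, ?_, fun i hi => fill_gt _ _ _ hi, a2⟩⟩
    simp only [fill_self]
    exact ⟨n1 _, n2 _ b2⟩

theorem main [Countable E] [Nonempty E] [TopologicalSpace E] [DiscreteTopology E]
    (h1 : ∀ e, lv (r e) = lv (s e) + 1) (h2 : ∀ v, 0 < lv v → ∃ e, r e = v)
    (h3 : ∀ v, {e | r e = v}.Finite) :
    ∃ o : E → ℤ, (∀ e e', r e = r e' → o e = o e' → e = e') ∧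
      ∃ T : {x // IsPath s r lv x} → {x // IsPath s r lv x}, Function.Bijective T ∧
        @Measurable _ _ (borel _) (borel _) T ∧
        ∀ x n, (∀ i, i < n → IsMx r o (x.1 i)) → ¬ IsMx r o (x.1 n) → Ver r o x.1 (T x).1 n := by
  classical
  obtain ⟨o, ho, hc⟩ := exo h1 h2 h3
  have ho' : ∀ e e', r e = r e' → (-o) e = (-o) e' → e = e' :=
    fun e e' h h' => ho e e' h (neg_injective h')
  borelize (ℕ → E)
  have m1 := (XM_closed (s := s) (r := r) (lv := lv) o).measurableSet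
  have s1 := m1.standardBorel
  have s2 := (XM_closed (s := s) (r := r) (lv := lv) (-o)).measurableSet.standardBorel
  obtain ⟨φ⟩ : Nonempty (XM s r lv o ≃ᵐ XM s r lv (-o)) := by
    rcases hc with h | ⟨⟨e⟩⟩
    · exact ⟨PolishSpace.measurableEquivOfNotCountable (fun a => h.1 (countable_coe_iff.1 a))
        fun a => h.2 (countable_coe_iff.1 a)⟩
    · exact ⟨PolishSpace.Equiv.measurableEquiv e⟩
  obtain ⟨F, F1, F2⟩ := exVer h1 h2 h3 ho
  obtain ⟨G, -, G2⟩ := exVer h1 h2 h3 ho'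
  have hex : ∀ (o : E → ℤ) (x : {x // IsPath s r lv x}), x.1 ∉ XM s r lv o →
      ∃ n, (∀ i, i < n → IsMx r o (x.1 i)) ∧ ¬ IsMx r o (x.1 n) := by
    intro o x hx
    have : ∃ n, ¬ IsMx r o (x.1 n) := not_forall.1 fun h => hx ⟨x.2, h⟩
    exact ⟨Nat.find this, fun i hi => not_not.1 (Nat.find_min this hi), Nat.find_spec this⟩
  have hp : ∀ x : {x // IsPath s r lv x}, ∃ n, x.1 ∈ XM s r lv o ∨
      ((∀ i, i < n → IsMx r o (x.1 i)) ∧ ¬ IsMx r o (x.1 n)) := fun x => by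
    by_cases h : x.1 ∈ XM s r lv o
    · exact ⟨0, Or.inl h⟩
    · exact (hex o x h).imp fun _ => Or.inr
  let f : ℕ → {x // IsPath s r lv x} → {x // IsPath s r lv x} := fun n x =>
    if h : x.1 ∈ XM s r lv o then ⟨φ ⟨x, h⟩, (φ ⟨x, h⟩).2.1⟩ else ⟨F n x, (F2 x n x.2).1⟩
  let T := fun x => f (Nat.find (hp x)) x
  have T1 : ∀ x (h : x.1 ∈ XM s r lv o), (T x).1 = φ ⟨x, h⟩ := fun x h => by
    simp only [T, f, dif_pos h]
  have T2 : ∀ x, x.1 ∉ XM s r lv o → ∃ n, Ver r o x.1 (T x).1 n := fun x h => by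
    have := (Nat.find_spec (hp x)).resolve_left h
    simp only [T, f, dif_neg h]
    exact ⟨_, (F2 x _ x.2).2 this.1 this.2⟩
  have hv : ∀ {o : E → ℤ} {x y : ℕ → E} {n : ℕ}, Ver r o x y n → x ∉ XM s r lv o :=
    fun h a => h.1.2 (a.2 _)
  refine ⟨o, ho, T, ⟨fun x y h => ?_, fun y => ?_⟩, ?_, fun x n a1 a2 => ?_⟩
  · by_cases hx : x.1 ∈ XM s r lv o <;> by_cases hy : y.1 ∈ XM s r lv o
    · have := T1 x hx
      rw [h, T1 y hy] at this
      exact Subtype.ext (congrArg Subtype.val (φ.injective (Subtype.ext this))).symm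
    · obtain ⟨n, hn⟩ := T2 y hy
      exact absurd (by rw [← h, T1 x hx]; exact (φ _).2) (hv hn.symm)
    · obtain ⟨n, hn⟩ := T2 x hx
      exact absurd (by rw [h, T1 y hy]; exact (φ _).2) (hv hn.symm)
    · obtain ⟨n, hn⟩ := T2 x hx
      obtain ⟨m, hm⟩ := T2 y hy
      rw [h] at hn
      exact Subtype.ext (hn.symm.uniq ho' hm.symm x.2 y.2)
  · by_cases hy : y.1 ∈ XM s r lv (-o)
    · refine ⟨⟨φ.symm ⟨y, hy⟩, (φ.symm ⟨y, hy⟩).2.1⟩, Subtype.ext ?_⟩
      rw [T1 _ (φ.symm ⟨y, hy⟩).2]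
      exact congrArg Subtype.val (φ.apply_symm_apply ⟨y, hy⟩)
    · obtain ⟨n, a1, a2⟩ := hex _ y hy
      have a3 := ((G2 y n y.2).2 a1 a2).symm
      rw [neg_neg] at a3
      obtain ⟨m, hm⟩ := T2 ⟨G n y, (G2 y n y.2).1⟩ (hv a3)
      exact ⟨_, Subtype.ext (hm.uniq ho a3 (T _).2 y.2)⟩
  · rw [← BorelSpace.measurable_eq (α := {x // IsPath s r lv x})]
    have c1 : ∀ (i : ℕ) (P : E → Prop), MeasurableSet {x : {x // IsPath s r lv x} | P (x.1 i)} :=
      fun i P => ((isClosed_discrete {e | P e}).preimage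
        ((continuous_apply i).comp continuous_subtype_val)).measurableSet
    have m2 : MeasurableSet {x : {x // IsPath s r lv x} | x.1 ∈ XM s r lv o} :=
      measurable_subtype_coe m1
    refine Measurable.find (fun n => ?_) (fun n => ?_) hp
    · refine Measurable.dite (s := {x : {x // IsPath s r lv x} | x.1 ∈ XM s r lv o})
        (f := fun x => (⟨φ ⟨x.1, x.2⟩, (φ ⟨x.1, x.2⟩).2.1⟩ : {x // IsPath s r lv x}))
        (g := fun x => (⟨F n x.1, (F2 x.1 n x.1.2).1⟩ : {x // IsPath s r lv x})) ?_ ?_ m2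
      · exact (measurable_subtype_coe.comp (φ.measurable.comp
          ((measurable_subtype_coe.comp measurable_subtype_coe).subtype_mk))).subtype_mk
      · exact ((F1 n).measurable.comp
          (measurable_subtype_coe.comp measurable_subtype_coe)).subtype_mk
    · simp only [setOf_or, setOf_and, setOf_forall]
      exact m2.union ((MeasurableSet.iInter fun i => MeasurableSet.iInter fun _ =>
        c1 i _).inter (c1 n fun e => ¬ IsMx r o e))
  · obtain ⟨m, hm⟩ := T2 x fun h => a2 (h.2 n)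
    have := hm.uniq ho ((F2 x n x.2).2 a1 a2) (T x).2 (F2 x n x.2).1
    rw [this]
    exact (F2 x n x.2).2 a1 a2

end Pool.Agent.H.MP_f8f5a4_an
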